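import Pool.Agent.W418.RAH.Cert

/-!
# The labels are special
-/

set_option autoImplicit false
set_option linter.all false
set_option maxHeartbeats 1000000

namespace Pool.Agent.W418.RAH

open Pool.Agent.W387 Pool.Agent.W387.RA

/-- the functional -/
def phi (c : ℕ) : Bz →+ ZMod 4 where
  toFun x := ∑ k : Fin 11, ((dg c 4 k.val : ℕ) : ZMod 4) * x k
  map_zero' := by simp
  map_add' x y := by simp [mul_add, Finset.sum_add_distrib]

theorem phi_apply (c : ℕ) (x : Bz) :
    phi c x = ∑ k : Fin 11, ((dg c 4 k.val : ℕ) : ZMod 4) * x k := rfl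

theorem phi_tab (c T e : ℕ) (x : Bz) (h : ∀ k : Fin 11, (x k).val = dg T 4 (11 * e + k.val)) :
    phi c x = ((vs c T e : ℕ) : ZMod 4) := by
  have h' : ∀ k : Fin 11, x k = ((dg T 4 (11 * e + k.val) : ℕ) : ZMod 4) := fun k => by
    rw [← h k]; exact (ZMod.natCast_zmod_val (x k)).symm
  rw [phi_apply]
  simp only [h']
  have h2 : (∑ k : Fin 11, ((dg c 4 k.val : ℕ) : ZMod 4) * ((dg T 4 (11 * e + k.val) : ℕ) : ZMod 4))
      = ∑ k ∈ Finset.range 11, ((dg c 4 k : ℕ) : ZMod 4) * ((dg T 4 (11 * e + k) : ℕ) : ZMod 4) :=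
    (Finset.sum_range (fun k => ((dg c 4 k : ℕ) : ZMod 4) * ((dg T 4 (11 * e + k) : ℕ) : ZMod 4))).symm
  rw [h2]
  simp only [Finset.sum_range_succ, Finset.sum_range_zero, zero_add, add_zero]
  unfold vs
  push_cast
  rfl

theorem phi_be (c : ℕ) (e : Lt) : phi c (be e) = ((vs c Tb e.val : ℕ) : ZMod 4) :=
  phi_tab c Tb e.val (be e) (tb_val e)

theorem phi_ofs (c : ℕ) (e : Lt) : phi c (ofs e) = ((vs c To e.val : ℕ) : ZMod 4) :=
  phi_tab c To e.val (ofs e) (to_val e)

/-- the position of an end of an edge -/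
def ps (s : ℕ) (e : Lt) : Bz := if s = 0 then ofs e else ofs e - be e

theorem three_eq : (3 : ZMod 4) = -1 := by decide

theorem phi_ps (c s : ℕ) (e : Lt) : phi c (ps s e) = ((pv c s e.val : ℕ) : ZMod 4) := by
  unfold ps pv
  split_ifs
  · exact phi_ofs c e
  · rw [map_sub, phi_be, phi_ofs]
    push_cast
    rw [three_eq]; ring

theorem phi_df (c s : ℕ) (e f : Lt) :
    phi c (ps s e) - phi c (ps s f) = ((df c s e.val f.val : ℕ) : ZMod 4) := by
  rw [phi_ps, phi_ps]
  unfold df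
  have h := ZMod.natCast_mod (pv c s e.val + 3 * pv c s f.val) 4
  rw [h]
  push_cast
  rw [three_eq]; ring

theorem df_lt (c s e f : ℕ) : df c s e f < 4 := Nat.mod_lt _ (by norm_num)

theorem cast_inj {a b : ℕ} (ha : a < 4) (hb : b < 4) (h : (a : ZMod 4) = (b : ZMod 4)) : a = b := by
  have h1 := (ZMod.natCast_eq_natCast_iff a b 4).1 h
  have h2 : a % 4 = b % 4 := h1
  omega

theorem good_zero {c : ℕ} {j : Fin 8} (h : good c j.val = true) : ∀ x ∈ Kj j, phi c x = 0 := by
  have hle : Kj j ≤ (phi c).ker := by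
    unfold Kj
    rw [AddSubgroup.closure_le]
    rintro x ⟨t, ht, hx⟩
    unfold good at h
    rw [List.all_eq_true] at h
    have h1 := h t ht
    rw [Bool.and_eq_true, Bool.or_eq_true, Bool.or_eq_true, Bool.not_eq_true', Bool.not_eq_true',
      beq_eq_false_iff_ne, beq_eq_false_iff_ne, beq_iff_eq, beq_iff_eq] at h1
    rw [SetLike.mem_coe, AddMonoidHom.mem_ker]
    rcases hx with ⟨h2, rfl⟩ | ⟨h2, rfl⟩
    · have h3 : g1 c t % 4 = 0 := by
        rcases h1.1 with h4 | h4
        · exfalso; apply h4; rw [← tt_val, h2]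
        · exact h4
      have h5 : phi c (ofs t.1 - (be t.1 - be t.2.1 + ofs t.2.2.1)) = ((g1 c t : ℕ) : ZMod 4) := by
        rw [map_sub, map_add, map_sub, phi_ofs, phi_ofs, phi_be, phi_be]
        unfold g1
        push_cast
        rw [three_eq]; ring
      rw [h5, ← ZMod.natCast_mod, h3]
      rfl
    · have h3 : g2 c t % 4 = 0 := by
        rcases h1.2 with h4 | h4
        · exfalso; apply h4; rw [← tt_val, h2]
        · exact h4
      have h5 : phi c (ofs t.2.2.2 - (be t.1 - be t.2.1 + ofs t.2.1)) = ((g2 c t : ℕ) : ZMod 4) := by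
        rw [map_sub, map_add, map_sub, phi_ofs, phi_ofs, phi_be, phi_be]
        unfold g2
        push_cast
        rw [three_eq]; ring
      rw [h5, ← ZMod.natCast_mod, h3]
      rfl
  intro x hx
  exact hle hx

/-- the label -/
def lb (s : ℕ) (b : Bz) (e : Lt) : Vc := ⟨tp e, QuotientAddGroup.mk (b + ps s e)⟩

theorem lab0 (b : Bz) (e : Lt) : lab e b = lb 0 b e := by
  unfold lab lb ps
  rw [if_pos rfl]

theorem lab1 (b : Bz) (e : Lt) : lab e (b - be e) = lb 1 b e := by
  unfold lab lb ps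
  rw [if_neg one_ne_zero]
  have : b - be e + ofs e = b + (ofs e - be e) := by abel
  rw [this]

theorem sig_eq (j j' : Fin 8) (x y : Bz)
    (h : (⟨j, QuotientAddGroup.mk x⟩ : Vc) = ⟨j', QuotientAddGroup.mk y⟩) :
    j = j' ∧ x - y ∈ Kj j := by
  have h1 : j = j' := congrArg Sigma.fst h
  subst h1
  refine ⟨rfl, ?_⟩
  have h2 := (Sigma.mk.inj_iff.1 h).2
  have h3 : (QuotientAddGroup.mk x : Bz ⧸ Kj j) = QuotientAddGroup.mk y := eq_of_heq h2
  rw [QuotientAddGroup.eq] at h3
  have h4 : x - y = -(-x + y) := by abel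
  rw [h4]
  exact neg_mem h3

theorem lb_eq {s s' : ℕ} {b b' : Bz} {e e' : Lt} (h : lb s b e = lb s' b' e') :
    tp e = tp e' ∧ (b + ps s e) - (b' + ps s' e') ∈ Kj (tp e) :=
  sig_eq _ _ _ _ h

theorem goodA {e f : Lt} {c : ℕ} (hc : c ∈ NL.getD (ixx e.val f.val) []) :
    good c (tp e).val = true ∧ good c (tp f).val = true := by
  have h := chkA
  rw [List.all_eq_true] at h
  have h1 := h (tp e).val (List.mem_range.2 (tp e).isLt)
  rw [List.all_eq_true] at h1
  have h2 := h1 (tp f).val (List.mem_range.2 (tp f).isLt)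
  rw [List.all_eq_true] at h2
  have e1 : ixx e.val f.val = 8 * (tp e).val + (tp f).val := by
    unfold ixx; rw [← tt_val, ← tt_val]
  rw [e1] at hc
  have h3 := h2 c hc
  rw [Bool.and_eq_true] at h3
  exact h3

/-- the code depends only on the labels -/
theorem has_of {s s' : ℕ} {b b' : Bz} {e f e' f' : Lt} (h1 : lb s b e = lb s' b' e')
    (h2 : lb s b f = lb s' b' f') (h : has s' e'.val f'.val = true) : has s e.val f.val = true := by
  obtain ⟨a1, a2⟩ := lb_eq h1
  obtain ⟨b1, b2⟩ := lb_eq h2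
  have hix : ixx e'.val f'.val = ixx e.val f.val := by
    unfold ixx; rw [← tt_val, ← tt_val, ← tt_val, ← tt_val, a1, b1]
  have hcode : code (NL.getD (ixx e.val f.val) []) s e.val f.val =
      code (NL.getD (ixx e.val f.val) []) s' e'.val f'.val := by
    unfold code
    refine List.map_congr_left fun c hc => ?_
    obtain ⟨g1, g2⟩ := goodA hc
    have k1 := good_zero g1 _ a2
    have k2 := good_zero g2 _ b2
    refine cast_inj (df_lt _ _ _ _) (df_lt _ _ _ _) ?_
    rw [← phi_df, ← phi_df]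
    rw [map_sub, map_add, map_add] at k1 k2
    linear_combination k1 - k2
  unfold has at h ⊢
  rw [hix] at h
  rw [hcode]
  exact h

theorem has_cornP {e f : Lt} (h : cornP e f = true) : has 0 e.val f.val = true := by
  unfold cornP at h
  rw [List.any_eq_true] at h
  obtain ⟨t, ht, h1⟩ := h
  have h2 := chkS
  rw [List.all_eq_true] at h2
  have h3 := h2 t ht
  simp only [Bool.and_eq_true, Bool.or_eq_true, beq_iff_eq] at h1 h3
  obtain ⟨⟨⟨⟨⟨⟨⟨p1, p2⟩, p3⟩, p4⟩, m1⟩, m2⟩, m3⟩, m4⟩ := h3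
  rcases h1 with ((h1 | h1) | h1) | h1
  · rw [h1.1, h1.2]; exact p1
  · rw [h1.1, h1.2]; exact p2
  · rw [h1.1, h1.2]; exact p3
  · rw [h1.1, h1.2]; exact p4

theorem has_cornM {e f : Lt} (h : cornM e f = true) : has 1 e.val f.val = true := by
  unfold cornM at h
  rw [List.any_eq_true] at h
  obtain ⟨t, ht, h1⟩ := h
  have h2 := chkS
  rw [List.all_eq_true] at h2
  have h3 := h2 t ht
  simp only [Bool.and_eq_true, Bool.or_eq_true, beq_iff_eq] at h1 h3
  obtain ⟨⟨⟨⟨⟨⟨⟨p1, p2⟩, p3⟩, p4⟩, m1⟩, m2⟩, m3⟩, m4⟩ := h3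
  rcases h1 with ((h1 | h1) | h1) | h1
  · rw [h1.1, h1.2]; exact m1
  · rw [h1.1, h1.2]; exact m2
  · rw [h1.1, h1.2]; exact m3
  · rw [h1.1, h1.2]; exact m4

theorem has_adj {s : ℕ} {b : Bz} {e f : Lt} (h : adjV (lb s b e) (lb s b f)) :
    has s e.val f.val = true := by
  rcases h with ⟨b', e', f', hc, h1, h2⟩ | ⟨b', e', f', hc, h1, h2⟩
  · rw [lab0] at h1 h2
    exact has_of h1 h2 (has_cornP hc)
  · rw [lab1] at h1 h2
    exact has_of h1 h2 (has_cornM hc)

theorem h2 : Pool.Agent.W387.RA.StmH2 := by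
  refine ⟨fun b e f hef h => ?_, fun b e f hef h => ?_⟩
  · rw [lab0, lab0] at h
    have h1 := has_adj h
    have h3 := chkP e f
    rw [h1] at h3
    simpa [hef] using h3
  · rw [lab1, lab1] at h
    have h1 := has_adj h
    have h3 := chkM e f
    rw [h1] at h3
    simpa [hef] using h3

theorem inj {s : Fin 2} {b : Bz} {e f : Lt} (h : lb s.val b e = lb s.val b f) : e = f := by
  obtain ⟨a1, a2⟩ := lb_eq h
  by_contra hef
  have h1 := chkI s e f
  have e1 : dg Tt 8 e.val = dg Tt 8 f.val := by rw [← tt_val, ← tt_val, a1]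
  have h4 : ((N1.getD (dg Tt 8 e.val) []).any fun c => !(df c s.val e.val f.val == 0)) = true := by
    simpa [hef, e1] using h1
  rw [List.any_eq_true] at h4
  obtain ⟨c, hc, h5⟩ := h4
  have h6 : df c s.val e.val f.val ≠ 0 := by simpa using h5
  have h7 := chkN1
  rw [List.all_eq_true] at h7
  have h8 := h7 (tp e).val (List.mem_range.2 (tp e).isLt)
  rw [List.all_eq_true] at h8
  rw [← tt_val] at hc
  have h9 := good_zero (h8 c hc) _ a2
  apply h6
  refine cast_inj (df_lt _ _ _ _) (by norm_num) ?_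
  rw [← phi_df]
  rw [map_sub, map_add, map_add] at h9
  rw [Nat.cast_zero]
  linear_combination h9

theorem h1 : Pool.Agent.W387.RA.StmH1 := by
  refine ⟨fun b e f h => ?_, fun b e f h => ?_⟩
  · rw [lab0, lab0] at h
    exact inj (s := 0) h
  · rw [lab1, lab1] at h
    exact inj (s := 1) h

theorem isY_mem : ∀ y : Lt, isY y = true →
    y.val ∈ ([3, 13, 19, 29, 32, 33, 34, 35] : List ℕ) := by
  decide +kernel

theorem cleanY {s : Fin 2} {b : Bz} {e : Lt} (h : adjT (lb s.val b e) (QuotientAddGroup.mk b)) :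
    isY e = true := by
  obtain ⟨b', y, hy, h1, h2⟩ := h
  rw [lab0] at h1
  obtain ⟨a1, a2⟩ := lb_eq h1
  rw [QuotientAddGroup.eq] at h2
  by_contra hne
  have hne' : isY e = false := by simpa using hne
  have k1 := chkY s e
  rw [hne', Bool.false_or, List.all_eq_true] at k1
  have k2 := k1 y.val (isY_mem y hy)
  have e1 : dg Tt 8 y.val = dg Tt 8 e.val := by rw [← tt_val, ← tt_val, a1]
  rw [e1, beq_self_eq_true, Bool.not_true, Bool.false_or, List.any_eq_true] at k2
  obtain ⟨c, hc, k3⟩ := k2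
  rw [Bool.not_eq_true', beq_eq_false_iff_ne] at k3
  have h7 := chkN3
  rw [List.all_eq_true] at h7
  have h8 := h7 (tp e).val (List.mem_range.2 (tp e).isLt)
  rw [List.all_eq_true] at h8
  rw [← tt_val] at hc
  have h9 := h8 c hc
  rw [Bool.and_eq_true, List.all_eq_true] at h9
  have h10 := good_zero h9.1 _ a2
  have h11 : phi c (-b + b') = 0 := by
    have hle : KT ≤ (phi c).ker := by
      unfold KT
      rw [AddSubgroup.closure_le]
      rintro x ⟨z, hz, rfl⟩
      rw [SetLike.mem_coe, AddMonoidHom.mem_ker, phi_be, ← ZMod.natCast_mod]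
      have h12 := h9.2 z.val (isY_mem z hz)
      rw [beq_iff_eq] at h12
      rw [h12]
      rfl
    exact hle h2
  apply k3
  refine cast_inj (Nat.mod_lt _ (by norm_num)) (by norm_num) ?_
  rw [ZMod.natCast_mod]
  push_cast
  rw [← phi_ps, ← phi_ps, three_eq]
  rw [map_sub, map_add, map_add] at h10
  rw [map_add, map_neg] at h11
  linear_combination h10 + h11

theorem h3 : Pool.Agent.W387.RA.StmH3 := by
  refine ⟨fun b e h => ?_, fun b e h => ?_⟩
  · rw [lab0] at h
    exact cleanY (s := 0) h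
  · rw [lab1] at h
    exact cleanY (s := 1) h

end Pool.Agent.W418.RAH
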