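import Pool.Agent.W387.R.Stm

/-!
# The labels are special: finite certificate
-/

set_option autoImplicit false
set_option linter.all false

namespace Pool.Agent.W418.RAH

open Pool.Agent.W387 Pool.Agent.W387.RA

/-- digit of a number -/
def dg (T b i : ℕ) : ℕ := T / b ^ i % b

/-- the table of `be` -/
def Tb : ℕ := 7734275248407052176423714885406972592966082803710992263251370039422266854501531277461644752771983765846244573320097251270003706230870454143181010240929144684499032762739479026559660044061669016231436925776410858326805967627938952881635329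

/-- the table of `ofs` -/
def To : ℕ := 2848983960892084954712967770965535879831531399714409166733912523894796122625345326449779194697271172713408303299187754553200929113548633643382241750199778011221207768774649033917168637124044368535922271039405990733330227355120974931427328

/-- the table of the types -/
def Tt : ℕ := 221520325494004277186359216227976

/-- the functionals for pairs of types -/
def NL : List (List ℕ) := [[], [], [], [], [132211, 8704], [134384], [132175, 8704], [561459], [], [], [], [],
  [136243], [146480], [136207, 640], [557427, 34], [], [], [], [], [131443, 10240],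
  [142320, 10240], [131407], [3718835], [], [], [], [], [135219], [135216, 32, 512, 2176],
  [135183], [2658291, 34], [132211, 8704], [136243], [131443, 10240], [135219], [], [],
  [], [], [134384], [146480], [142320, 10240], [135216, 32, 512, 2176], [], [], [], [],
  [132175, 8704], [136207, 640], [131407], [135183], [], [], [], [], [561459], [557427,
  34], [3718835], [2658291, 34], [], [], [], []]

/-- the codes of the corners for pairs of types -/
def TL : List (List (List ℕ)) := [[], [], [], [], [[0, 0], [2, 0]], [[0]], [[0, 0], [2, 0]], [[0], [2]], [], [], [], [],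
  [[0], [2]], [[0]], [[0, 0], [2, 0]], [[0, 0]], [], [], [], [], [[0, 0], [2, 0]], [[0,
  0]], [[0], [2]], [[2]], [], [], [], [], [[0]], [[1, 2, 0, 0], [1, 2, 0, 2], [1, 2, 2,
  2], [2, 2, 0, 0], [2, 2, 2, 0], [3, 2, 0, 2], [3, 2, 2, 0], [3, 2, 2, 2]], [[0]], [[0,
  0]], [[0, 0], [2, 0]], [[0], [2]], [[0, 0], [2, 0]], [[0]], [], [], [], [], [[0]],
  [[0]], [[0, 0]], [[1, 2, 0, 2], [1, 2, 2, 0], [1, 2, 2, 2], [2, 2, 0, 0], [2, 2, 2, 0],
  [3, 2, 0, 0], [3, 2, 0, 2], [3, 2, 2, 2]], [], [], [], [], [[0, 0], [2, 0]], [[0, 0],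
  [2, 0]], [[0], [2]], [[0]], [], [], [], [], [[0], [2]], [[0, 0]], [[2]], [[0, 0]], [],
  [], [], []]

/-- the functionals for the types -/
def N1 : List (List ℕ) := [[3848006], [2233984], [3849542], [2801094, 525376], [3159138], [4512, 131088], [3159114],
  [3159138]]

/-- the functionals for the types of the subcomplex -/
def N3 : List (List ℕ) := [[], [], [], [135680], [], [131600], [], []]

/-- the value of the functional `c` at the row `e` of the table `T` -/
def vs (c T e : ℕ) : ℕ :=
  dg c 4 0 * dg T 4 (11 * e) + dg c 4 1 * dg T 4 (11 * e + 1) + dg c 4 2 * dg T 4 (11 * e + 2) +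
  dg c 4 3 * dg T 4 (11 * e + 3) + dg c 4 4 * dg T 4 (11 * e + 4) +
  dg c 4 5 * dg T 4 (11 * e + 5) + dg c 4 6 * dg T 4 (11 * e + 6) +
  dg c 4 7 * dg T 4 (11 * e + 7) + dg c 4 8 * dg T 4 (11 * e + 8) +
  dg c 4 9 * dg T 4 (11 * e + 9) + dg c 4 10 * dg T 4 (11 * e + 10)

/-- the value at the end (`s = 1`) or the origin (`s = 0`) of the edge -/
def pv (c s e : ℕ) : ℕ := if s = 0 then vs c To e else vs c To e + 3 * vs c Tb e

/-- difference of values -/
def df (c s e f : ℕ) : ℕ := (pv c s e + 3 * pv c s f) % 4

/-- codes -/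
def code (L : List ℕ) (s e f : ℕ) : List ℕ := L.map (fun c => df c s e f)

/-- index of a pair of types -/
def ixx (e f : ℕ) : ℕ := 8 * dg Tt 8 e + dg Tt 8 f

/-- the code of `(s, e, f)` is the code of a corner -/
def has (s e f : ℕ) : Bool := (TL.getD (ixx e f) []).contains (code (NL.getD (ixx e f) []) s e f)

def g1 (c : ℕ) (t : Lt × Lt × Lt × Lt) : ℕ :=
  vs c To t.1.val + 3 * vs c Tb t.1.val + vs c Tb t.2.1.val + 3 * vs c To t.2.2.1.val

def g2 (c : ℕ) (t : Lt × Lt × Lt × Lt) : ℕ :=
  vs c To t.2.2.2.val + 3 * vs c Tb t.1.val + vs c Tb t.2.1.val + 3 * vs c To t.2.1.val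

/-- the functional `c` vanishes on the translation subgroup of the type `j` -/
def good (c j : ℕ) : Bool := sqs.all (fun t =>
  (!(dg Tt 8 t.1.val == j) || g1 c t % 4 == 0) && (!(dg Tt 8 t.2.1.val == j) || g2 c t % 4 == 0))

/-! ### Checks -/

theorem tb_val : ∀ (e : Fin 36) (k : Fin 11), (be e k).val = dg Tb 4 (11 * e.val + k.val) := by
  decide +kernel

theorem to_val : ∀ (e : Fin 36) (k : Fin 11), (ofs e k).val = dg To 4 (11 * e.val + k.val) := by
  decide +kernel

theorem tt_val : ∀ e : Fin 36, (tp e).val = dg Tt 8 e.val := by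
  decide +kernel

theorem chkA : ((List.range 8).all fun j => (List.range 8).all fun i =>
    (NL.getD (8 * j + i) []).all fun c => good c j && good c i) = true := by
  decide +kernel

theorem chkN1 : ((List.range 8).all fun j => (N1.getD j []).all fun c => good c j) = true := by
  decide +kernel

theorem chkN3 : ((List.range 8).all fun j => (N3.getD j []).all fun c => good c j &&
    [3, 13, 19, 29, 32, 33, 34, 35].all fun y => vs c Tb y % 4 == 0) = true := by
  decide +kernel

theorem chkP : ∀ e f : Fin 36, ((e == f) || !(has 0 e.val f.val) || cornP e f) = true := by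
  decide +kernel

theorem chkM : ∀ e f : Fin 36, ((e == f) || !(has 1 e.val f.val) || cornM e f) = true := by
  decide +kernel

theorem chkS : (sqs.all fun t => has 0 t.1.val t.2.2.2.val && has 0 t.2.2.2.val t.1.val &&
    has 0 t.2.1.val t.2.2.1.val && has 0 t.2.2.1.val t.2.1.val &&
    has 1 t.1.val t.2.1.val && has 1 t.2.1.val t.1.val &&
    has 1 t.2.2.1.val t.2.2.2.val && has 1 t.2.2.2.val t.2.2.1.val) = true := by
  decide +kernel

theorem chkI : ∀ (s : Fin 2) (e f : Fin 36), ((e == f) || !(dg Tt 8 e.val == dg Tt 8 f.val) ||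
    (N1.getD (dg Tt 8 e.val) []).any fun c => !(df c s.val e.val f.val == 0)) = true := by
  decide +kernel

theorem chkY : ∀ (s : Fin 2) (e : Fin 36), (isY e || [3, 13, 19, 29, 32, 33, 34, 35].all fun y =>
    !(dg Tt 8 y == dg Tt 8 e.val) || (N3.getD (dg Tt 8 e.val) []).any fun c =>
      !((pv c s.val e.val + 3 * pv c 0 y) % 4 == 0)) = true := by
  decide +kernel

end Pool.Agent.W418.RAH
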